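import Mathlib
import Pool.Agent.Helper35.HG.StE

/-!
# Module MBD of project HG: linear bounds of `M_a`
-/

set_option autoImplicit false

namespace Helper88.HG

open Helper35.HG Helper35.HC Helper35.HSF Helper35.MS Helper35.PI Helper35.PI2 Helper32.CL

theorem hMBD : StMBD := by
  intro X hX
  have hpos : 0 < 1 + 13 / 4 * X := by positivity
  have h0 : 0 < hh X := by
    unfold hh
    positivity
  have h1 : hh X ≤ 1 := by
    unfold hh
    rw [div_le_one hpos]
    linarith
  have hrel : hh X * (1 + 13 / 4 * X) = 1 := by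
    unfold hh
    field_simp
  have hr : hh X * X = 4 / 13 * (1 - hh X) := by linarith
  have e8 := Poly.m8 (hh X) 0 h0.le h1 le_rfl zero_le_one
  have e0 := Poly.m0 (hh X) 0 h0.le h1 le_rfl zero_le_one
  unfold Mf Jf Lf
  generalize hh X = h at *
  constructor
  · have key : h * ((4 / 5 * (263 / 1000 + 23 / 100 * X + 17 / 100 * h) + X + 1) *
        (263 / 1000 + 17 / 100 * (2 * h - h ^ 2)) - 2 * (263 / 1000 + 23 / 100 * X + 17 / 100 * h) +
        (1 / 2 - 4 / 5 / 8) * (433 / 1000) * (263 / 1000 + 23 / 100 * X + 17 / 100 * h) -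
        (-(382 / 10000) - 1087 / 10000 * X)) =
        -9/406250 - 859/32500000*h - 159409/3250000*h^2 - 158593/1625000*h^3 - 289/12500*h^4 := by
      linear_combination ((4 / 5 * (23 / 100) + 1) * (263 / 1000 + 17 / 100 * (2 * h - h ^ 2)) -
        2 * (23 / 100) + (1 / 2 - 4 / 5 / 8) * (433 / 1000) * (23 / 100) + 1087 / 10000) * hr
    by_contra hc
    push Not at hc
    have h3 := mul_pos h0 (sub_pos.2 hc)
    linarith
  · have key : h * ((0 * (263 / 1000 + 23 / 100 * X + 17 / 100 * h) + X + 1) *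
        (263 / 1000 + 17 / 100 * (2 * h - h ^ 2)) - 2 * (263 / 1000 + 23 / 100 * X + 17 / 100 * h) +
        (1 / 2 - 0 / 8) * (433 / 1000) * (263 / 1000 + 23 / 100 * X + 17 / 100 * h) -
        (-(1 / 10) - 147 / 1000 * X)) =
        -41/650000 - 35933/26000000*h - 312307/2600000*h^2 - 153/1300*h^3 := by
      linear_combination ((263 / 1000 + 17 / 100 * (2 * h - h ^ 2)) -
        2 * (23 / 100) + (1 / 2) * (433 / 1000) * (23 / 100) + 147 / 1000) * hr
    by_contra hc
    push Not at hc
    have h3 := mul_pos h0 (sub_pos.2 hc)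
    linarith

end Helper88.HG
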